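import Pool.Agent.Q181.BD.Circ3

set_option autoImplicit false

/-!
# Mahler measures of determinants of norm less than `3 / √2` are integers

Let `A` be a square matrix of integer polynomials such that the operator norm of `A(z)` is less than
`3 / √2 = 2.1213…` for `|z| = 1`. Then, up to powers of `X`, the determinant of `A` is a product of
polynomials with at most two terms; if it is not zero, its Mahler measure is a positive integer. The
same holds for Laurent polynomials in several variables (torsion-free abelian groups).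

The bound is optimal: up to sign and powers of `X` every integer polynomial is the determinant of
matrices of `O(L)` rows and norm at most `3 / √2 + 2 ^ (-L)`.

Method: a matrix over `ℤ[t, t⁻¹]` is a `ℤ`-periodic weighted graph. Below the norm `3 / √2` there are no
long tripods. Two disjoint connected bi-infinite paths are only possible if `A A* = 4`; otherwise all
paths of the same component pass through one vertex in each period, and two terms of the expansion of
the determinant differ by at most one power of a fixed element.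
-/

open Polynomial

namespace Pool.Agent.Results.MP_7ab245_nt.DeterminantsOfSmallNorm

noncomputable section

/-- The Mahler measure of an integer polynomial. -/
def mahler (P : ℤ[X]) : ℝ := (P.map (Int.castRingHom ℂ)).mahlerMeasure

/-- The value of a matrix of integer polynomials at a complex number. -/
def value {n : ℕ} (A : Matrix (Fin n) (Fin n) ℤ[X]) (z : ℂ) : Matrix (Fin n) (Fin n) ℂ :=
  A.map fun a => a.eval₂ (Int.castRingHom ℂ) z

/-- For all `z` on the unit circle the norm of `v ↦ v A(z)` on `ℂ^n` is at most `c` (`c ≥ 0`). -/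
def CircleNormLE {n : ℕ} (A : Matrix (Fin n) (Fin n) ℤ[X]) (c : ℝ) : Prop :=
  ∀ z : ℂ, ‖z‖ = 1 → ∀ v : Fin n → ℂ,
    ∑ j, ‖(Matrix.vecMul v (value A z)) j‖ ^ 2 ≤ c ^ 2 * ∑ i, ‖v i‖ ^ 2

/-- The norm of the convolution operator `x ↦ x A` on `ℓ²(G)^n` is at most `c` (`c ≥ 0`); it is enough
to take `x` with finite support. -/
def GroupNormLE {G : Type} [Group G] {n : ℕ} (A : Matrix (Fin n) (Fin n) (MonoidAlgebra ℤ G))
    (c : ℝ) : Prop :=
  ∀ x : Fin n → MonoidAlgebra ℝ G,
    ∑ j, ∑ g ∈ (Matrix.vecMul x (A.map (MonoidAlgebra.mapRingHom G (Int.castRingHom ℝ))) j).coeff.support,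
      (Matrix.vecMul x (A.map (MonoidAlgebra.mapRingHom G (Int.castRingHom ℝ))) j).coeff g ^ 2 ≤
      c ^ 2 * ∑ i, ∑ g ∈ (x i).coeff.support, (x i).coeff g ^ 2

theorem result :
    (∀ (n : ℕ) (A : Matrix (Fin n) (Fin n) ℤ[X]) (c : ℝ), 0 ≤ c → c < 3 / Real.sqrt 2 →
      CircleNormLE A c →
      (∃ (r : ℕ) (s : Multiset ((ℤ × ℕ) × (ℤ × ℕ))), X ^ r * A.det =
        (s.map fun x => C x.1.1 * X ^ x.1.2 + C x.2.1 * X ^ x.2.2).prod) ∧
      (A.det ≠ 0 → ∃ N : ℕ, 1 ≤ N ∧ mahler A.det = N)) ∧
    (∀ P : ℤ[X], ∃ k : ℕ, ∀ L : ℕ, 1 ≤ L → ∃ (n : ℕ) (A : Matrix (Fin n) (Fin n) ℤ[X]),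
      n ≤ k * L ∧ CircleNormLE A (3 / Real.sqrt 2 + (1 / 2) ^ L) ∧
        ∃ r s : ℕ, X ^ r * A.det = X ^ s * P ∨ X ^ r * A.det = -(X ^ s * P)) ∧
    ∀ (G : Type) [CommGroup G], (∀ g : G, ∀ k : ℕ, 0 < k → g ^ k = 1 → g = 1) →
      ∀ (n : ℕ) (A : Matrix (Fin n) (Fin n) (MonoidAlgebra ℤ G)) (c : ℝ), 0 ≤ c →
        c < 3 / Real.sqrt 2 → GroupNormLE A c → ∃ s : Multiset ((G × ℤ) × (G × ℤ)), A.det =
          (s.map fun x => MonoidAlgebra.single x.1.1 x.1.2 + MonoidAlgebra.single x.2.1 x.2.2).prod :=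
  ⟨fun n A c h0 hc hA => Pool.Agent.Q181.BD.f_low n A c h0 hc hA,
    fun P => Pool.Agent.Q181.BD.f_up P,
    fun G _ htf n A c h0 hc hA => Pool.Agent.Q181.BD.bin_det G htf (Fin n) A c h0 hc hA⟩

end

end Pool.Agent.Results.MP_7ab245_nt.DeterminantsOfSmallNorm
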