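import Mathlib
import Pool.Agent.Q262.NS.Fin

/-!
# Lehmer's problem for nearly symmetric integer matrices

For a square matrix `A` of size `n` let `M(A)` be the Mahler measure of `z ^ n χ_A(z + 1/z)`.

For every `k` there is `μ > 1` such that `M(A) = 1` or `M(A) ≥ μ` for every integer matrix `A`, of any
size, with `∑ (a_ij - a_ji) ² ≤ k`. For `k = 0`, that is for symmetric matrices, this is a theorem of
McKee and Smyth (2012, with the best constant). On the other hand every monic reciprocal integer
polynomial of even degree is `z ^ n χ_A(z + 1/z)` for some integer matrix `A`, and here `k` is bounded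
in terms of the length; so the theorem also contains Lehmer's inequality for the reciprocal
polynomials of bounded length, and Lehmer's problem is the question whether `μ` can be chosen
independently of `k`.

Moreover for `M(A) ≤ B` the polynomial `z ^ n χ_A(z + 1/z)` is, up to factors of measure one, a
polynomial of length bounded in terms of `k` and `B`. So the measures of the nearly symmetric matrices
are the measures of the reciprocal polynomials of bounded length.

More generally all this holds for complex matrices `A` of `d × d` blocks that are Hermitian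
outside a principal submatrix of `k` blocks of rows, with `∑ |a_ij - conj a_ji| ² ≤ k`, if the
characteristic polynomials of `A` and of all principal submatrices (made of blocks) without the
exceptional rows are integral. For `d = 1` this contains the nearly symmetric integer matrices
and the nearly symmetrizable ones; for `d = [K : ℚ]` it contains the norms of the characteristic
polynomials of the nearly Hermitian matrices over the ring of integers of `K`.

Method. Let `H = (A + A*) / 2`. Its characteristic polynomial is not integral, and the eigenvalues of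
`A` and of `H` cannot be compared one by one. One integrates `log |χ|` on `[-2, 2]` against the semicircle
law `1 - cos(4 π t)`, `x = 2 cos(2 π t)`. For a zero `w = r e^(iθ) + 1 / (r e^(iθ))`, `r ≥ 1`, the integral of
`log |x - w|` is at least `Re w ² / 4 - 1/2 - Ψ(log r)` with `Ψ(s) = sinh(2 s) / 2 - s`, with equality for real
`w`, and `tr H ² - Re tr A ² = ∑ |a_ij - conj a_ji| ² / 4`. The quotient `χ_A / χ_H` is a determinant
of bounded size of matrix elements of the resolvent of `H`, so the integral of `log⁺ |χ_A / χ_H|` is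
bounded. Hence `∑ Ψ(log r_j)` over the eigenvalues of `H` is bounded in terms of `M(A)` and `k`. By
interlacing and packing (as for the Hermitian matrices of the starting library) boundedly many blocks
of rows can be deleted such that the rest is Hermitian with all eigenvalues in `[-2, 2]`. So `A` is a
perturbation of bounded rank and norm of an integral matrix `A'` with `M(A') = 1`, and the pair of the
characteristic polynomials has bounded height. For such pairs Lehmer's inequality and compactness are
known (starting library).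
-/

set_option autoImplicit false

namespace Pool.Agent.Results.MP_7ab245_nt.NearlySymmetric

open Polynomial NumberField

noncomputable section

/-- The polynomial `z ^ n p(z + 1/z)` for a polynomial `p` of degree `n`. -/
def joukowski (p : ℤ[X]) : ℤ[X] :=
  ∑ k ∈ Finset.range (p.natDegree + 1), C (p.coeff k) * (X ^ 2 + 1) ^ k * X ^ (p.natDegree - k)

/-- The Mahler measure of an integer polynomial. -/
def M (p : ℤ[X]) : ℝ := (p.map (Int.castRingHom ℂ)).mahlerMeasure

/-- The length: the sum of the absolute values of the coefficients. -/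
def length (p : ℤ[X]) : ℤ := ∑ i ∈ p.support, |p.coeff i|

/-- The characteristic polynomials of the integer matrices with `∑ (a_ij - a_ji) ² ≤ k`. -/
def NearlySymmetric (k : ℕ) (p : ℤ[X]) : Prop :=
  ∃ (n : ℕ) (A : Matrix (Fin n) (Fin n) ℤ),
    ∑ i, ∑ j, (A i j - A j i) ^ 2 ≤ (k : ℤ) ∧ A.charpoly = p

/-- The principal submatrix of a matrix of `d × d` blocks with the blocks in `U`. -/
def blocks {n d : ℕ} (A : Matrix (Fin n × Fin d) (Fin n × Fin d) ℂ) (U : Finset (Fin n)) :
    Matrix (U × Fin d) (U × Fin d) ℂ :=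
  A.submatrix (fun x => (x.1.1, x.2)) (fun x => (x.1.1, x.2))

/-- The integer polynomials that are the characteristic polynomial of a complex matrix of `d × d`
blocks, Hermitian outside a set `Z` of at most `k` blocks of rows, with `∑ |a_ij - conj a_ji| ² ≤ k`,
such that the principal submatrices made of blocks outside `Z` have integral characteristic
polynomials. -/
def NearlyHermitian (d k : ℕ) (p : ℤ[X]) : Prop :=
  ∃ (n : ℕ) (A : Matrix (Fin n × Fin d) (Fin n × Fin d) ℂ) (Z : Finset (Fin n)),
    Z.card ≤ k ∧ (∀ i j, i.1 ∉ Z → A j i = star (A i j)) ∧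
    ∑ i, ∑ j, ‖A i j - star (A j i)‖ ^ 2 ≤ (k : ℝ) ∧
    (∀ U, Disjoint U Z → ∃ q : ℤ[X], q.map (Int.castRingHom ℂ) = (blocks A U).charpoly) ∧
    A.charpoly = p.map (Int.castRingHom ℂ)

/-- The conjugate of a matrix over the ring of integers of a number field. -/
def conjugate {K : Type} [Field K] {n : ℕ} (A : Matrix (Fin n) (Fin n) (𝓞 K)) (σ : K →+* ℂ) :
    Matrix (Fin n) (Fin n) ℂ := A.map (fun x => σ (algebraMap (𝓞 K) K x))

theorem result :
    (∀ d k : ℕ, ∃ μ : ℝ, 1 < μ ∧ ∀ p, NearlyHermitian d k p →
      M (joukowski p) = 1 ∨ μ ≤ M (joukowski p)) ∧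
    (∀ (d k : ℕ) (B : ℝ), ∃ L : ℕ, ∀ p, NearlyHermitian d k p → M (joukowski p) ≤ B →
      ∃ Φ Ψ R : ℤ[X], M Φ = 1 ∧ M Ψ = 1 ∧ joukowski p * Φ = R * Ψ ∧ length R ≤ L) ∧
    (∀ k p, NearlySymmetric k p → NearlyHermitian 1 k p) ∧
    (∀ (k : ℕ) (K : Type) (_ : Field K) (_ : NumberField K) (n : ℕ)
      (A : Matrix (Fin n) (Fin n) (𝓞 K)) (Z : Finset (Fin n)), Z.card ≤ k →
      (∀ (σ : K →+* ℂ) (i j : Fin n), i ∉ Z → conjugate A σ j i = star (conjugate A σ i j)) →
      ∑ σ : K →+* ℂ, ∑ i, ∑ j, ‖conjugate A σ i j - star (conjugate A σ j i)‖ ^ 2 ≤ (k : ℝ) →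
      ∃ p, NearlyHermitian (Module.finrank ℚ K) k p ∧
        p.map (Int.castRingHom ℂ) = ∏ σ : K →+* ℂ, (conjugate A σ).charpoly) ∧
    (∀ (L n : ℕ) (R : ℤ[X]), R.Monic → R.reverse = R → R.natDegree = 2 * n → length R ≤ L →
      ∃ p, NearlySymmetric (8 * L ^ 2) p ∧ joukowski p = R) := by
  have key : ∀ d k p, NearlyHermitian d k p → ∃ (n : ℕ)
      (A : Matrix (Fin n × Fin d) (Fin n × Fin d) ℂ) (Z : Finset (Fin n)),
      Q262.NS.NC k A Z ∧ Pool.Agent.H261R2.CM.toC p = A.charpoly := by
    rintro d k p ⟨n, A, Z, h1, h2, h3, h4, h5⟩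
    exact ⟨n, A, Z, ⟨h1, h2, h3, h4, ⟨p, h5.symm⟩⟩, h5.symm⟩
  refine ⟨fun d k => ?_, fun d k B => ?_, ?_, ?_, ?_⟩
  · obtain ⟨μ, hμ, h⟩ := Q262.NS.NC.gap d k
    refine ⟨μ, hμ, fun p hp => ?_⟩
    obtain ⟨n, A, Z, h1, h2⟩ := key d k p hp
    exact h n A Z p h1 h2
  · obtain ⟨L, h⟩ := Q262.NS.NC.str d k B
    refine ⟨L, fun p hp hB => ?_⟩
    obtain ⟨n, A, Z, h1, h2⟩ := key d k p hp
    exact h n A Z p h1 h2 hB
  · rintro k p ⟨n, A, hA, rfl⟩
    have h := Q262.NS.blow_NC A hA
    exact ⟨n, _, _, h.card, h.herm, h.frob, h.itg, Q262.NS.blow_charpoly A⟩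
  · intro k K _ _ n A Z hZ hH hF
    obtain ⟨B, h, hB⟩ := Q262.NS.nf_near _ k K rfl n A Z hZ hH hF
    obtain ⟨p, hp⟩ := h.int
    exact ⟨p, ⟨n, B, Z, h.card, h.herm, h.frob, h.itg, hp.symm⟩, hp.trans hB⟩
  · intro L n R hm hr hdeg hL
    obtain ⟨n, A, h1, h2⟩ := Q262.NS.recip_matrix L n R hm hr hdeg hL
    exact ⟨A.charpoly, ⟨n, A, h1, rfl⟩, h2⟩

end

end Pool.Agent.Results.MP_7ab245_nt.NearlySymmetric
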