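import Mathlib
import Pool.Agent.Q191.MV.Qp

/-!
# Lehmer's problem over number fields with many embeddings in a `p`-adic field

Let `F` be a number field (Galois over `ℚ` or not) and `p` a prime number, such that the number of
the embeddings of `F` in `ℚ_p` is at least `[F : ℚ] / B`. For instance `F = ℚ(θ)`, where at least
`[F : ℚ] / B` of the conjugates of `θ` are in `ℚ_p`; nothing is assumed on the other ones. Let `f` be
a polynomial with integer coefficients, and `α` one of its zeros, which is neither zero nor a root of
unity, of degree `d` over `ℚ` and of degree `D` over `F`. If `α` is an algebraic integer, or if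
`M(f) < 2`, then

`log M(f) ≥ d / (4 p ^ 3 D exp (√(3 B log p log (7 B D))))`.

So Lehmer's conjecture holds for the numbers `α` with `d ≥ c D exp (√(3 B log p log (7 B D)))`, for
instance for those for which `ℚ(α)` contains such a field `F`, with `D = [ℚ(α) : F]` at most
`exp (c (log [F : ℚ]) ^ 2)`. Nothing is assumed on `ℚ(α) / F`; in particular `α` need not have any
conjugate in an extension of `ℚ_p` of small degree.

More generally, the same is true with a power `q` of `p` in place of `p`, if `F` has an automorphism
`τ` such that `x ^ q ≡ τ x` modulo `P` for all the integers `x` of `F` and all `P` in a set `T` of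
primes of `F` above `p`, and the product of the norms of the members of `T` is at least
`p ^ ([F : ℚ] / B)`. For instance `τ = 1`, if the sum of the residue degrees of the primes above `p`
with residue degree dividing `l` is at least `[F : ℚ] / B`, `q = p ^ l`.

For Galois extensions `F` of `ℚ` whose decomposition groups above `p` have elements with few conjugates
(in particular if `p` splits completely in `F`) a bound of the same shape, with a constant which is not
explicit, is in the starting file `Results.MP_2194ec_nt.RelativeLehmer`. It does not apply here: the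
decomposition groups of the Galois closure of `F` can be arbitrary.

Method. One may assume that all powers of `α` generate the same field over `F`. The conjugates of
`α ^ (q ^ j)`, `j = 0, …, J`, over the embeddings `v τ ^ (J - j)` of `F` are inserted into a
Vandermonde determinant, for each embedding `v` of `F` in `ℂ`. By Witt coordinates, the coefficients
of the minimal polynomials over `F` of `α ^ (q ^ b)` and of `α ^ (q ^ a)`, `a < b`, are congruent
modulo `P ^ (a + 1)` up to `τ ^ (b - a)`, for all `P` in `T`. So the norm of the product of the
determinants is large. Hadamard's inequality bounds it from above by the Mahler measure of `α`. Then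
`J` is chosen suitably.
-/

set_option autoImplicit false

open NumberField Module Polynomial

namespace Pool.Agent.Results.MP_7ab245_nt.PadicEmbeddings

/-- The number of the embeddings of `F` in `ℚ_p` is at least `[F : ℚ] / B`. -/
def ManyEmbeddings (F : Type) [Field F] [NumberField F] (p B : ℕ) : Prop :=
  ∃ _ : Fact p.Prime, finrank ℚ F ≤ B * Nat.card (F →+* ℚ_[p])

/-- The number field `F` has an automorphism `τ` which is congruent to the `q`-th power map modulo
many prime ideals: `q` is a power of a prime number `p`, and there is a finite set `T` of prime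
ideals above `p` with `x ^ q ≡ τ x` modulo each of them, such that the product of their norms is at
least `p ^ ([F : ℚ] / B)`. -/
def FrobeniusAt (F : Type) [Field F] [NumberField F] (q B : ℕ) : Prop :=
  ∃ (p l : ℕ) (τ : F ≃+* F) (T : Finset (Ideal (𝓞 F))), p.Prime ∧ 0 < l ∧ q = p ^ l ∧
    (∀ P ∈ T, P.IsPrime ∧ (p : 𝓞 F) ∈ P ∧
      ∀ x : 𝓞 F, x ^ q - RingOfIntegers.mapRingHom (τ : F →+* F) x ∈ P) ∧
    p ^ finrank ℚ F ≤ (∏ P ∈ T, Ideal.absNorm P) ^ B

/-- The Mahler measure of a polynomial with integer coefficients. -/
noncomputable def M (f : ℤ[X]) : ℝ := (f.map (Int.castRingHom ℂ)).mahlerMeasure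

/-- `4 q ^ 3 D exp (√(3 B log q log (7 B D)))` -/
noncomputable def cost (q B D : ℕ) : ℝ :=
  4 * (q : ℝ) ^ 3 * D * Real.exp (√(3 * B * Real.log q * Real.log (7 * B * D)))

/-- **Lehmer's problem over number fields with many embeddings in a `p`-adic field.** Let `F` be a
number field with at least `[F : ℚ] / B` embeddings in `ℚ_q` (`q` prime), or with `FrobeniusAt F q B`.
Let `f` be a polynomial with integer coefficients, not zero, and `α` one of its zeros, which is neither
zero nor a root of unity, of degree `d` over `ℚ` and `D` over `F`. Then `d ≤ cost q B D * log M(f)`, or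
`α` is not an algebraic integer and `M(f) ≥ 2`. -/
theorem result (F : IntermediateField ℚ ℂ) [NumberField F] (q B : ℕ)
    (hF : ManyEmbeddings F q B ∨ FrobeniusAt F q B) (f : ℤ[X]) (hf : f ≠ 0) (α : ℂ)
    (hα : aeval α f = 0) (hα0 : α ≠ 0) (hroot : ∀ m : ℕ, 0 < m → α ^ m ≠ 1) (d D : ℕ)
    (hd : (minpoly ℚ α).natDegree = d) (hD : (minpoly F α).natDegree = D) :
    d ≤ cost q B D * Real.log (M f) ∨ (¬ IsIntegral ℤ α ∧ 2 ≤ M f) := by
  by_cases hint : IsIntegral ℤ α
  · left
    have hF' : Pool.Agent.Q191.MV.FrobeniusAt F q B := by
      rcases hF with ⟨hq, hF⟩ | hF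
      · exact Pool.Agent.Q191.MV.frob_of_embeddings q B hF
      · exact hF
    have h1 := Pool.Agent.Q191.MV.lehmer_closed hf hα hα0 hroot hint F hF'
    rw [hd, hD] at h1
    refine h1.trans (le_of_eq ?_)
    unfold cost M Pool.Agent.Q191.MV.loss
    ring
  · right
    refine ⟨hint, ?_⟩
    by_contra h
    exact hint (Pool.Agent.Q191.MV.int_of_mahler hf hα (not_le.1 h)).1

end Pool.Agent.Results.MP_7ab245_nt.PadicEmbeddings
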