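import Pool.Agent.H159.ZD.Main
import Pool.Agent.Y947.DP.Fin
import Pool.Agent.H261R2.CM.L2

/-!
# Lehmer's problem and the angular discrepancy of the zeros

For an integer polynomial `f` of degree `n` let `N(t)` be the number of zeros of `f` (counted with
multiplicity) whose angle, divided by `2π` and taken in `[0, 1)`, is at most `t`, and let `D(f)` be
the quadratic discrepancy of the angles of the zeros, the standard deviation of `N(t) - n t` on
`[0, 1]`. It is at most the largest deviation of the number of zeros in a sector from its expected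
value.

If the zeros are distributed too regularly then the Mahler measure cannot be close to one:
`log M(f) ≥ c / (1 + D(f)) ^ 3` for every irreducible `f` with `M(f) > 1`. So in a sequence of
irreducible noncyclotomic polynomials whose measures tend to `1` the discrepancy of the zeros
would tend to infinity. The bound is better than that of Dobrowolski as soon as
`D(f) = o(log n / log log n)`.

Proof. `∫ log⁺ |f| ≤ log M(f) + √2 π D(f)` (see `Pool.Agent.H159.ZD`): the zeros are moved radially
to a circle inside the unit circle, the change of `log |f|` in the mean is exactly known because the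
difference of the normalised logarithms has constant sign on the unit circle, and for the moved
zeros the quadratic mean of `log |f|` is given by the power sums, as is the variance of `N(t) - n t`.
Then the theorems on Lehmer's problem and `∫ log⁺ |f|` are applied.
-/

set_option autoImplicit false

open MeasureTheory Real Polynomial

namespace Pool.Agent.Results.MP_7ab245_nt.ZeroDiscrepancy

noncomputable section

/-- The angle of a complex number divided by `2π`, in `[0, 1)`. -/
def angle (z : ℂ) : ℝ := Int.fract (Complex.arg z / (2 * π))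

/-- The Mahler measure of an integer polynomial. -/
def M (f : ℤ[X]) : ℝ := (f.map (Int.castRingHom ℂ)).mahlerMeasure

open Classical in
/-- The number of the complex zeros of `f`, with multiplicity, whose angle (divided by `2π`) is at
most `t`. -/
def zerosUpTo (f : ℤ[X]) (t : ℝ) : ℕ :=
  ((f.map (Int.castRingHom ℂ)).roots.filter fun z => angle z ≤ t).card

open Classical in
/-- The number of the complex zeros of `f`, with multiplicity, whose angle (divided by `2π`) lies in
`(s, t]`. -/
def zerosInSector (f : ℤ[X]) (s t : ℝ) : ℕ :=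
  ((f.map (Int.castRingHom ℂ)).roots.filter fun z => s < angle z ∧ angle z ≤ t).card

/-- The counting error. -/
def error (f : ℤ[X]) (t : ℝ) : ℝ := zerosUpTo f t - f.natDegree * t

/-- The quadratic discrepancy of the angles of the zeros: the standard deviation of the counting
error. -/
def discrepancy (f : ℤ[X]) : ℝ :=
  √(∫ t in (0:ℝ)..1, (error f t - ∫ s in (0:ℝ)..1, error f s) ^ 2)

/-- enumeration of the zeros -/
theorem exists_enum (f : ℤ[X]) : ∃ α : Fin f.natDegree → ℂ,
    (f.map (Int.castRingHom ℂ)).roots = Finset.univ.val.map α := by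
  set p := f.map (Int.castRingHom ℂ) with hp
  have hcard : p.roots.card = f.natDegree := by
    rw [← (IsAlgClosed.splits p).natDegree_eq_card_roots, hp,
      natDegree_map_eq_of_injective (RingHom.injective_int _)]
  obtain ⟨l, hl⟩ : ∃ l : List ℂ, (l : Multiset ℂ) = p.roots := ⟨p.roots.toList, by simp⟩
  have hlen : l.length = f.natDegree := by rw [← hcard, ← hl]; simp
  refine ⟨fun i => l.get (i.cast hlen.symm), ?_⟩
  rw [← hl, Fin.univ_val_map]
  congr 1
  apply List.ext_get
  · simp [hlen]
  · intro i h1 h2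
    simp

theorem zerosUpTo_eq (f : ℤ[X]) (α : Fin f.natDegree → ℂ)
    (hα : (f.map (Int.castRingHom ℂ)).roots = Finset.univ.val.map α) (t : ℝ) :
    (zerosUpTo f t : ℝ) = ∑ i, Pool.Agent.H159.ZD.stp (angle (α i)) t := by
  classical
  unfold zerosUpTo Pool.Agent.H159.ZD.stp
  rw [hα, Finset.sum_ite, Finset.sum_const, Finset.sum_const_zero, add_zero, nsmul_eq_mul, mul_one,
    Multiset.filter_map, Multiset.card_map]
  rfl

theorem error_eq (f : ℤ[X]) (α : Fin f.natDegree → ℂ)
    (hα : (f.map (Int.castRingHom ℂ)).roots = Finset.univ.val.map α) (t : ℝ) :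
    error f t = ∑ i, Pool.Agent.H159.ZD.cen (angle (α i)) t + ∑ i, (1 / 2 - angle (α i)) := by
  unfold error
  rw [zerosUpTo_eq f α hα, ← Finset.sum_add_distrib]
  have : (f.natDegree : ℝ) * t = ∑ _i : Fin f.natDegree, t := by
    rw [Finset.sum_const, Finset.card_univ, Fintype.card_fin, nsmul_eq_mul]
  rw [this, ← Finset.sum_sub_distrib]
  refine Finset.sum_congr rfl fun i _ => ?_
  unfold Pool.Agent.H159.ZD.cen
  ring

theorem angle_mem (z : ℂ) : 0 ≤ angle z ∧ angle z ≤ 1 :=
  ⟨Int.fract_nonneg _, (Int.fract_lt_one _).le⟩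

theorem integral_cen (x : ℝ) (h0 : 0 ≤ x) (h1 : x ≤ 1) :
    ∫ t in (0:ℝ)..1, Pool.Agent.H159.ZD.cen x t = 0 := by
  unfold Pool.Agent.H159.ZD.cen
  have i1 := Pool.Agent.H159.ZD.stp_int x 0 1
  have i2 : IntervalIntegrable (fun t : ℝ => t) volume 0 1 := continuous_id.intervalIntegrable 0 1
  have i3 : IntervalIntegrable (fun _ : ℝ => 1 / 2 - x) volume 0 1 :=
    continuous_const.intervalIntegrable 0 1
  have i4 : IntervalIntegrable (fun t : ℝ => Pool.Agent.H159.ZD.stp x t - t) volume 0 1 :=
    i1.sub i2
  rw [intervalIntegral.integral_sub i4 i3, intervalIntegral.integral_sub i1 i2,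
    Pool.Agent.H159.ZD.integral_stp x h0 h1]
  simp [integral_id]
  ring

theorem discrepancy_sq (f : ℤ[X]) (α : Fin f.natDegree → ℂ)
    (hα : (f.map (Int.castRingHom ℂ)).roots = Finset.univ.val.map α) :
    ∫ t in (0:ℝ)..1, (error f t - ∫ s in (0:ℝ)..1, error f s) ^ 2 =
      (∑ i, ∑ j, Pool.Agent.H159.ZD.B2 |angle (α i) - angle (α j)|) / 2 := by
  have h1 : ∫ s in (0:ℝ)..1, error f s = ∑ i, (1 / 2 - angle (α i)) := by
    simp_rw [error_eq f α hα]
    have hi : IntervalIntegrable (fun t => ∑ i, Pool.Agent.H159.ZD.cen (angle (α i)) t)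
        volume 0 1 := by
      have := IntervalIntegrable.sum (Finset.univ : Finset (Fin f.natDegree))
        (f := fun i => fun t => Pool.Agent.H159.ZD.cen (angle (α i)) t)
        (fun i _ => Pool.Agent.H159.ZD.cen_int (angle (α i)) 0 1)
      have e2 : (fun t => ∑ i, Pool.Agent.H159.ZD.cen (angle (α i)) t) =
          ∑ i, fun t => Pool.Agent.H159.ZD.cen (angle (α i)) t := by
        funext t
        simp
      rw [e2]
      exact this
    rw [intervalIntegral.integral_add hi (continuous_const.intervalIntegrable 0 1),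
      intervalIntegral.integral_finsetSum fun i _ => Pool.Agent.H159.ZD.cen_int (angle (α i)) 0 1,
      Finset.sum_eq_zero fun i _ => integral_cen _ (angle_mem _).1 (angle_mem _).2]
    simp
  rw [h1, ← Pool.Agent.H159.ZD.integral_sum_cen_sq _ fun i => angle_mem (α i)]
  refine intervalIntegral.integral_congr fun t _ => ?_
  show (error f t - _) ^ 2 = _
  rw [error_eq f α hα]
  ring

theorem eq_prod (f : ℤ[X]) (α : Fin f.natDegree → ℂ)
    (hα : (f.map (Int.castRingHom ℂ)).roots = Finset.univ.val.map α) :
    f.map (Int.castRingHom ℂ) = C (f.leadingCoeff : ℂ) * ∏ i, (X - C (α i)) := by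
  have h := (IsAlgClosed.splits (f.map (Int.castRingHom ℂ))).eq_prod_roots
  rw [hα, Multiset.map_map, leadingCoeff_map_of_injective (RingHom.injective_int _)] at h
  rw [h]
  rfl

theorem mean_le (f : ℤ[X]) (h0 : f.coeff 0 ≠ 0) :
    circleAverage (fun z : ℂ => Real.posLog ‖aeval z f‖) 0 1 ≤
      Real.log (M f) + √2 * π * discrepancy f := by
  obtain ⟨α, hα⟩ := exists_enum f
  have hf : f ≠ 0 := by rintro rfl; simp at h0
  have hprod := eq_prod f α hα
  have hlc : (1:ℝ) ≤ ‖(f.leadingCoeff : ℂ)‖ := by
    rw [Complex.norm_intCast]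
    exact_mod_cast Int.one_le_abs (leadingCoeff_ne_zero.2 hf)
  have hlc0 : (f.leadingCoeff : ℂ) ≠ 0 := by
    exact_mod_cast leadingCoeff_ne_zero.2 hf
  have hc0 : (1:ℝ) ≤ ‖(f.coeff 0 : ℂ)‖ := by
    rw [Complex.norm_intCast]
    exact_mod_cast Int.one_le_abs h0
  have hcoef : (f.coeff 0 : ℂ) = f.leadingCoeff * ∏ i, (-(α i)) := by
    have := congrArg (fun p => p.eval 0) hprod
    simp only [eval_mul, eval_C, eval_prod, eval_sub, eval_X, zero_sub] at this
    rw [← this, eval_map, eval₂_at_zero]
    rfl
  have hαne : ∀ i, α i ≠ 0 := by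
    intro i hi
    have : (f.coeff 0 : ℂ) = 0 := by
      rw [hcoef, Finset.prod_eq_zero (Finset.mem_univ i) (by rw [hi, neg_zero]), mul_zero]
    exact h0 (by exact_mod_cast this)
  have hnormprod : Real.log ‖(f.coeff 0 : ℂ)‖ = Real.log ‖(f.leadingCoeff : ℂ)‖ +
      ∑ i, Real.log ‖α i‖ := by
    rw [hcoef, norm_mul, norm_prod, Real.log_mul (norm_ne_zero_iff.2 hlc0)
      (Finset.prod_ne_zero_iff.2 fun i _ => by rw [norm_neg]; exact norm_ne_zero_iff.2 (hαne i)),
      Real.log_prod (fun i _ => by rw [norm_neg]; exact norm_ne_zero_iff.2 (hαne i))]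
    simp only [norm_neg]
  have h1 := Real.log_nonneg hlc
  have h2 := Real.log_nonneg hc0
  have key := Pool.Agent.H159.ZD.posLog_avg_le (f.leadingCoeff : ℂ) hlc0 α hαne (by linarith)
  have e1 : ∀ z : ℂ, aeval z f = (f.leadingCoeff : ℂ) * ∏ i, (z - α i) := by
    intro z
    have := congrArg (fun p => p.eval z) hprod
    simp only [eval_mul, eval_C, eval_prod, eval_sub, eval_X] at this
    rw [← this, eval_map, aeval_def]
    rfl
  simp_rw [e1]
  refine key.trans ?_
  have e2 : Real.log (M f) = Real.log ‖(f.leadingCoeff : ℂ)‖ + ∑ i, Real.posLog ‖α i‖ := by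
    unfold M
    rw [← logMahlerMeasure_eq_log_MahlerMeasure,
      logMahlerMeasure_eq_log_leadingCoeff_add_sum_log_roots, hα, Multiset.map_map,
      leadingCoeff_map_of_injective (RingHom.injective_int _)]
    rfl
  have e3 : √(π ^ 2 * ∑ i, ∑ j, Pool.Agent.H159.ZD.B2 |Pool.Agent.H159.ZD.ang (α i) -
      Pool.Agent.H159.ZD.ang (α j)|) = √2 * π * discrepancy f := by
    unfold discrepancy
    rw [discrepancy_sq f α hα]
    have : π ^ 2 * ∑ i, ∑ j, Pool.Agent.H159.ZD.B2 |Pool.Agent.H159.ZD.ang (α i) -
      Pool.Agent.H159.ZD.ang (α j)| = (2 * π ^ 2) * ((∑ i, ∑ j, Pool.Agent.H159.ZD.B2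
        |angle (α i) - angle (α j)|) / 2) := by
      unfold angle Pool.Agent.H159.ZD.ang
      ring
    rw [this, Real.sqrt_mul (by positivity), Real.sqrt_mul (by norm_num), Real.sqrt_sq pi_pos.le]
  rw [e2, e3]

/-- sectors -/
theorem sector (f : ℤ[X]) (D : ℝ) (hD : ∀ s t : ℝ, 0 ≤ s → s ≤ t → t ≤ 1 →
    |(zerosInSector f s t : ℝ) - f.natDegree * (t - s)| ≤ D) : discrepancy f ≤ D := by
  classical
  obtain ⟨α, hα⟩ := exists_enum f
  have hD0 : 0 ≤ D := (abs_nonneg _).trans (hD 0 0 le_rfl le_rfl zero_le_one)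
  have hdiff : ∀ s t : ℝ, s ≤ t → error f t - error f s =
      (zerosInSector f s t : ℝ) - f.natDegree * (t - s) := by
    intro s t hst
    have h1 : zerosUpTo f t = zerosUpTo f s + zerosInSector f s t := by
      unfold zerosUpTo zerosInSector
      rw [← Multiset.card_add]
      congr 1
      rw [Multiset.filter_add_filter]
      have hand : ((f.map (Int.castRingHom ℂ)).roots.filter fun z => angle z ≤ s ∧
          (s < angle z ∧ angle z ≤ t)) = 0 := by
        rw [Multiset.filter_eq_nil]
        rintro z - ⟨h2, h3, -⟩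
        linarith
      rw [hand, add_zero]
      refine Multiset.filter_congr fun z _ => ?_
      constructor
      · intro h
        rcases le_or_gt (angle z) s with h2 | h2
        · exact Or.inl h2
        · exact Or.inr ⟨h2, h⟩
      · rintro (h | h)
        · exact h.trans hst
        · exact h.2
    unfold error
    rw [h1]
    push_cast
    ring
  have hosc : ∀ s t : ℝ, s ∈ Set.Icc (0:ℝ) 1 → t ∈ Set.Icc (0:ℝ) 1 →
      |error f t - error f s| ≤ D := by
    intro s t hs ht
    rcases le_total s t with h | h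
    · rw [hdiff s t h]; exact hD s t hs.1 h ht.2
    · rw [abs_sub_comm, hdiff t s h]; exact hD t s ht.1 h hs.2
  have hint : IntervalIntegrable (error f) volume 0 1 := by
    have e : error f = fun t => ∑ i, Pool.Agent.H159.ZD.cen (angle (α i)) t +
        ∑ i, (1 / 2 - angle (α i)) := funext (error_eq f α hα)
    rw [e]
    refine IntervalIntegrable.add ?_ (continuous_const.intervalIntegrable 0 1)
    have := IntervalIntegrable.sum (Finset.univ : Finset (Fin f.natDegree))
      (f := fun i => fun t => Pool.Agent.H159.ZD.cen (angle (α i)) t)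
      (fun i _ => Pool.Agent.H159.ZD.cen_int (angle (α i)) 0 1)
    have e2 : (fun t => ∑ i, Pool.Agent.H159.ZD.cen (angle (α i)) t) =
        ∑ i, fun t => Pool.Agent.H159.ZD.cen (angle (α i)) t := by
      funext t
      simp
    rw [e2]
    exact this
  have hmean : ∀ t ∈ Set.Icc (0:ℝ) 1, |error f t - ∫ s in (0:ℝ)..1, error f s| ≤ D := by
    intro t ht
    have e : error f t - ∫ s in (0:ℝ)..1, error f s = ∫ s in (0:ℝ)..1, (error f t - error f s) := by
      rw [intervalIntegral.integral_sub (continuous_const.intervalIntegrable 0 1) hint]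
      simp
    rw [e, ← Real.norm_eq_abs]
    have := intervalIntegral.norm_integral_le_of_norm_le_const (a := (0:ℝ)) (b := 1) (C := D)
      (f := fun s => error f t - error f s) (fun s hs => by
        rw [Set.uIoc_of_le zero_le_one] at hs
        exact hosc s t ⟨hs.1.le, hs.2⟩ ht)
    simpa using this
  unfold discrepancy
  apply Real.sqrt_le_iff.2
  refine ⟨hD0, ?_⟩
  rw [← Real.norm_of_nonneg (intervalIntegral.integral_nonneg zero_le_one fun t _ => sq_nonneg _)]
  have := intervalIntegral.norm_integral_le_of_norm_le_const (a := (0:ℝ)) (b := 1) (C := D ^ 2)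
    (f := fun t => (error f t - ∫ s in (0:ℝ)..1, error f s) ^ 2) (fun t ht => by
      rw [Set.uIoc_of_le zero_le_one] at ht
      rw [Real.norm_eq_abs, abs_pow, sq_abs, ← sq_abs]
      exact pow_le_pow_left₀ (abs_nonneg _) (hmean t ⟨ht.1.le, ht.2⟩) 2)
  simpa using this

theorem logPlus_eq (f : ℤ[X]) : Pool.Agent.H261R2.CM.mx1 f 1 =
    circleAverage (fun z : ℂ => Real.posLog ‖aeval z f‖) 0 1 := by
  unfold Pool.Agent.H261R2.CM.mx1
  rw [circleAverage_def, smul_eq_mul]
  have h := intervalIntegral.integral_comp_mul_left (a := (0:ℝ)) (b := 1)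
    (fun θ => Real.posLog ‖aeval (circleMap 0 1 θ) f‖) (c := 2 * π) (by positivity)
  rw [mul_zero, mul_one, smul_eq_mul] at h
  rw [← h]
  refine intervalIntegral.integral_congr fun t _ => ?_
  show Real.log (max _ _) = Real.posLog _
  rw [Pool.Agent.H261R2.CM.ev1_one, norm_one, Real.posLog_eq_log_max_one (norm_nonneg _), max_comm]
  congr 3
  unfold Pool.Agent.H261R2.CM.ev1 Pool.Agent.H261R2.CM.toC Pool.Agent.H261R2.CM.ez
  rw [eval_map, aeval_def]
  unfold circleMap
  congr 1
  push_cast
  rw [zero_add, one_mul]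
  congr 1
  ring

/-- **Lehmer's problem for polynomials with regularly distributed zeros.** -/
theorem result :
    (∃ c : ℝ, 0 < c ∧ ∀ f : ℤ[X], Irreducible f → 1 < M f →
      Real.exp (c / (1 + discrepancy f) ^ 3) ≤ M f) ∧
    (∀ K : ℝ, ∃ μ : ℝ, 1 < μ ∧ ∀ f : ℤ[X], f.coeff 0 ≠ 0 → discrepancy f ≤ K →
      M f = 1 ∨ μ ≤ M f) ∧
    (∀ (f : ℤ[X]) (D : ℝ), (∀ s t : ℝ, 0 ≤ s → s ≤ t → t ≤ 1 →
      |(zerosInSector f s t : ℝ) - f.natDegree * (t - s)| ≤ D) → discrepancy f ≤ D) ∧
    (∀ f : ℤ[X], f.coeff 0 ≠ 0 →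
      circleAverage (fun z : ℂ => Real.posLog ‖aeval z f‖) 0 1 ≤
        Real.log (M f) + √2 * π * discrepancy f) := by
  have hs2 : √2 * π ≤ 5 := by
    have h1 : √2 ≤ 1.5 := by
      rw [Real.sqrt_le_left (by norm_num)]; norm_num
    have h2 := Real.pi_lt_d2
    have h3 := Real.pi_pos
    nlinarith [Real.sqrt_nonneg 2]
  refine ⟨?_, ?_, sector, mean_le⟩
  · obtain ⟨c0, hc0, hc⟩ := Y947.DP.irr_case3
    refine ⟨min (Real.log 2) (c0 / 216), lt_min (Real.log_pos (by norm_num)) (by positivity), ?_⟩
    intro f hf hM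
    have hd : 0 ≤ discrepancy f := Real.sqrt_nonneg _
    have hpos : 0 < M f := by linarith
    rw [← Real.exp_log hpos]
    apply Real.exp_le_exp.2
    rcases le_or_gt 2 (M f) with h2 | h2
    · have h3 : Real.log 2 ≤ Real.log (M f) := Real.log_le_log (by norm_num) h2
      refine le_trans ?_ h3
      have h4 : (1:ℝ) ≤ (1 + discrepancy f) ^ 3 := one_le_pow₀ (by linarith)
      rw [div_le_iff₀ (by positivity)]
      have h5 := min_le_left (Real.log 2) (c0 / 216)
      have h6 : 0 < Real.log 2 := Real.log_pos (by norm_num)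
      nlinarith
    · have hcoeff : f.coeff 0 ≠ 0 := by
        intro h
        have hX : (X : ℤ[X]) ∣ f := X_dvd_iff.2 h
        have hassoc : Associated X f := (irreducible_X.dvd_irreducible_iff_associated hf).1 hX
        obtain ⟨u, hu⟩ := hassoc
        obtain ⟨r, hr, hru⟩ := Polynomial.isUnit_iff.1 u.isUnit
        have : M f = 1 := by
          unfold M
          rw [← hu, ← hru, Polynomial.map_mul, map_X, map_C, mahlerMeasure_mul,
            mahlerMeasure_const]
          have h1 : (X : ℂ[X]).mahlerMeasure = 1 := by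
            have := mahlerMeasure_X_sub_C (0:ℂ)
            simpa using this
          rw [h1, one_mul]
          rcases Int.isUnit_iff.1 hr with h3 | h3 <;> simp [h3]
        linarith
      have h3 := mean_le f hcoeff
      have h4 := hc f hf hM
      have h5 : Real.log (M f) < 1 := by
        have := Real.log_lt_log hpos h2
        have := Real.log_two_lt_d9
        linarith
      have h6 : 1 + Y947.DP.mp f ≤ 6 * (1 + discrepancy f) := by
        have : Y947.DP.mp f ≤ Real.log (M f) + √2 * π * discrepancy f := h3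
        nlinarith
      have h7 := Y947.DP.mp_nonneg f
      have h8 : (1 + Y947.DP.mp f) ^ 3 ≤ 216 * (1 + discrepancy f) ^ 3 := by
        calc (1 + Y947.DP.mp f) ^ 3 ≤ (6 * (1 + discrepancy f)) ^ 3 :=
              pow_le_pow_left₀ (by linarith) h6 3
          _ = 216 * (1 + discrepancy f) ^ 3 := by ring
      refine le_trans ?_ h4
      calc min (Real.log 2) (c0 / 216) / (1 + discrepancy f) ^ 3
          ≤ (c0 / 216) / (1 + discrepancy f) ^ 3 := by
            gcongr
            exact min_le_right _ _
        _ = c0 / (216 * (1 + discrepancy f) ^ 3) := by rw [div_div]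
        _ ≤ c0 / (1 + Y947.DP.mp f) ^ 3 := by gcongr
  · intro K
    obtain ⟨c, hc, h⟩ := Pool.Agent.H261R2.CM.gap_logplus (1 + 5 * K)
    refine ⟨min c 2, lt_min hc (by norm_num), ?_⟩
    intro f hf hK
    have hf0 : f ≠ 0 := by rintro rfl; simp at hf
    rcases le_or_gt 2 (M f) with h2 | h2
    · exact Or.inr ((min_le_right _ _).trans h2)
    · have hd : 0 ≤ discrepancy f := Real.sqrt_nonneg _
      have hpos : 0 < M f := mahlerMeasure_pos_of_ne_zero
        ((Polynomial.map_ne_zero_iff (RingHom.injective_int _)).2 hf0)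
      have h5 : Real.log (M f) < 1 := by
        have := Real.log_lt_log hpos h2
        have := Real.log_two_lt_d9
        linarith
      have h3 := mean_le f hf
      have h4 : Pool.Agent.H261R2.CM.mx1 f 1 ≤ 1 + 5 * K := by
        rw [logPlus_eq]
        nlinarith
      rcases h f hf0 h4 with h6 | h6
      · exact Or.inl h6
      · exact Or.inr ((min_le_left _ _).trans h6)

end

end Pool.Agent.Results.MP_7ab245_nt.ZeroDiscrepancy
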